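import Pool.Agent.L7h31.CP.All

/-!
# The corona radius in the local theorem for isohedral tilings: `k_n(E^n) ≥ n - 1`

Let `k_n(S)` be the least `K ≥ 1` such that every monohedral face-to-face tiling of `S` by convex
polytopes, in which any two tiles are carried into each other by an isometry that maps the `K`-th corona
of the first onto the `K`-th corona of the second, is isohedral (Dolbilin and Schattschneider). We prove
`k_n(E^n) ≥ n - 1` for the euclidean space of any dimension `n ≥ 3` (`k_3 ≥ 2` is known).

## The tilings

Let `r = n - 1`. For `i ∈ ℤ` the slab `i ≤ y ≤ i + 1` of `ℝ^r × ℝ` is divided into the parallelepipeds with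
the bottom `ν + [0,1]^r` and the top `ν + v_i + [0,1]^r`, `ν ∈ ℤ^r`, where `v_i = ± e_a` with
`a = (i / 2) mod r` (floor division), and the sign is `-` for `i = 0, 1` and `+` otherwise. On all interfaces
`y = i` this is the tiling by the standard unit cubes, so the tiling is face-to-face. The `m`-th corona of a
tile of the slab `i` is determined by the vectors `v_(i-m), ..., v_(i+m)`. If `m ≤ r - 1` these `2 m + 1` slabs
belong to at most `r` consecutive pairs of slabs, whose vectors are, up to the sign, different unit vectors,
so by the isometries of the cubical grid the signs and the order of the coordinates can be changed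
arbitrarily; slabs `i`, `j` of the same parity are compared by a translation of the index, slabs of
different parity by a reflection. So all `m`-th coronas are congruent for `m ≤ r - 1 = n - 2`, but
the symmetries of the tiling preserve the pair of slabs `i = 0, 1` where the sign is different.

The formal proof is a joint work of the seats listed in `departures/helper31.md`.
-/

set_option autoImplicit false

namespace Pool.Agent.Results.MP_6d95fe_co.EuclideanSpaces

open Pool.Agent.L7h31.CE (IsTiling Monohedral Isohedral CondB)

/-- The property of `K` in the definition of the number `k_n` for euclidean space of dimension `n`: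
`K ≥ 1` and every monohedral face-to-face tiling by convex polytopes which satisfies the condition (b)
for `k = K` is isohedral. The number `k_n` is the least `K` with this property. -/
def CoronaProperty (n K : ℕ) : Prop :=
  1 ≤ K ∧ ∀ T : Set (Set (EuclideanSpace ℝ (Fin n))),
    IsTiling T → Monohedral T → CondB T K → Isohedral T

/-- For every `n ≥ 3` there is a monohedral face-to-face tiling of euclidean `n`-space by convex polytopes
which satisfies the condition (b) for all `k ≤ n - 2` (any two tiles `P`, `Q` are carried into each other
by an isometry that maps the `k`-th corona of `P` onto the `k`-th corona of `Q`), but is not isohedral.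
Hence all `K` with the property in the definition of `k_n` are at least `n - 1`, that is
`k_n(E^n) ≥ n - 1`. -/
theorem result (n : ℕ) (hn : 3 ≤ n) :
    (∃ T : Set (Set (EuclideanSpace ℝ (Fin n))), IsTiling T ∧ Monohedral T ∧
      (∀ k : ℕ, k ≤ n - 2 → CondB T k) ∧ ¬ Isohedral T) ∧
    ∀ K : ℕ, CoronaProperty n K → n - 1 ≤ K := by
  obtain ⟨r, rfl⟩ : ∃ r, n = r + 1 := ⟨n - 1, by omega⟩
  have h : ∃ T : Set (Set (EuclideanSpace ℝ (Fin (r + 1)))), IsTiling T ∧ Monohedral T ∧
      (∀ m : ℕ, m ≤ r - 1 → CondB T m) ∧ ¬ Isohedral T :=
    Pool.Agent.L7h31.CP.final_ok r (r - 1) (by omega) (by omega)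
  obtain ⟨T, h1, h2, h3, h4⟩ := h
  refine ⟨⟨T, h1, h2, fun k hk => h3 k (by omega), h4⟩, fun K hK => ?_⟩
  by_contra hc
  exact h4 (hK.2 T h1 h2 (h3 K (by omega)))

end Pool.Agent.Results.MP_6d95fe_co.EuclideanSpaces
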