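import Pool.Agent.L7h31.CR.All

/-!
# The corona radius in the local theorem for isohedral tilings: `k_n(H^n) ≥ n`

Let `k_n(S)` be the least `K ≥ 1` such that every monohedral face-to-face tiling of `S` by convex
polytopes, in which any two tiles are carried into each other by an isometry that maps the `K`-th corona
of the first onto the `K`-th corona of the second, is isohedral (Dolbilin and Schattschneider). We prove
`k_n(H^n) ≥ n` for the hyperbolic space of any dimension `n ≥ 2` (for `n = 2` this is an example of
Makarov).

## The tilings

Let `m = n - 1`, `λ^m = 2`, and use the upper half-space with the coordinates `x ∈ ℝ^m`, `y > 0`. At the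
level `l` the space `ℝ^m` is divided into boxes with the sides `λ^l, ..., λ^(l+m-1)` (the side in the
direction `i` is the power `λ^e` with `e ≡ i` modulo `m`); so a box of the level `l + 1` is divided into
two boxes of the level `l` by the hyperplane orthogonal to its longest side, and all boxes are similar.
For a large constant `c` the vertices `(v, √c λ^l)`, `v` a vertex of a box of the level `l`, span a
hyperbolic hyperplane over the box; these pieces form a surface over `ℝ^m` for each `l`, and the tiles are
the sets bounded by the surface of the level `l` above, by the surface of the level `l - 1` below, and by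
the vertical walls over a box of the level `l` (two of the facets of a tile are on the lower surface).
For `n = 2` this is a tiling of Böröczky.

The `r`-th corona of a tile of the level `l` consists of tiles of levels at most `l + r`. If `r ≤ m`, these
levels are preserved by the reflections in the hyperplanes `x_i = N s_i`, `s_i` the side of the level `l`
in the direction `i` and `N` an integer, and by the translations by `2 N s_i`, hence the `r`-th coronas of
all tiles of the level `l` are congruent. The tiling is not isohedral: a hyperplane that does not cut any
tile is one of the hyperplanes `x_i = 0`, and only some of the tiles touch them.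

The formal proof is a joint work of the seats listed in `departures/helper31.md`.
-/

set_option autoImplicit false

namespace Pool.Agent.Results.MP_6d95fe_co.HyperbolicSpaces

open Pool.Agent.L7h31.CR

/-- The property of `K` in the definition of the number `k_n` for hyperbolic space of dimension `n`
(`Hyp (Fin (n - 1))`): `K ≥ 1` and every monohedral face-to-face tiling by convex polytopes which satisfies
the condition (b) for `k = K` is isohedral. The number `k_n` is the least `K` with this property. -/
def CoronaProperty (n K : ℕ) : Prop :=
  1 ≤ K ∧ ∀ T : Set (Set (Hyp (Fin (n - 1)))),
    IsTiling T → Monohedral T → CondB T K → Isohedral T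

/-- For every `n ≥ 2` there is a monohedral face-to-face tiling of hyperbolic `n`-space by convex polytopes
which satisfies the condition (b) for all `k ≤ n - 1` (any two tiles `P`, `Q` are carried into each other
by an isometry that maps the `k`-th corona of `P` onto the `k`-th corona of `Q`), but is not isohedral.
Hence all `K` with the property in the definition of `k_n` are at least `n`, that is `k_n(H^n) ≥ n`. -/
theorem result (n : ℕ) (hn : 2 ≤ n) :
    (∃ T : Set (Set (Hyp (Fin (n - 1)))), IsTiling T ∧ Monohedral T ∧
      (∀ k : ℕ, k ≤ n - 1 → CondB T k) ∧ ¬ Isohedral T) ∧
    ∀ K : ℕ, CoronaProperty n K → n ≤ K := by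
  obtain ⟨k, rfl⟩ : ∃ k, n = k + 2 := ⟨n - 2, by omega⟩
  have h : ∃ T : Set (Set (Hyp (Fin (k + 1)))), IsTiling T ∧ Monohedral T ∧
      (∀ r : ℕ, r ≤ k + 1 → CondB T r) ∧ ¬ Isohedral T := final_ok k
  obtain ⟨T, h1, h2, h3, h4⟩ := h
  refine ⟨⟨T, h1, h2, h3, h4⟩, fun K hK => ?_⟩
  by_contra hc
  exact h4 (hK.2 T h1 h2 (h3 K (by omega)))

end Pool.Agent.Results.MP_6d95fe_co.HyperbolicSpaces
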